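import Pool.Agent.R440.TQ.Neg

open MeasureTheory Set Finset Filter
open scoped ENNReal ContDiff ComplexConjugate Topology Nat

namespace Pool.Agent.R440.TQ
open Pool.Agent.R440.TP

/-- Taylor coefficients at `0` -/
noncomputable def co (p : ℂ → ℂ) (j : ℕ) : ℂ := (j ! : ℂ)⁻¹ * iteratedDeriv j p 0

theorem co_hasSum {p : ℂ → ℂ} (hp : DifferentiableOn ℂ p (Metric.ball 0 1)) {z : ℂ}
    (hz : z ∈ Metric.ball (0:ℂ) 1) : HasSum (fun j => co p j * z ^ j) (p z) := by
  have := Complex.hasSum_taylorSeries_on_ball hp hz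
  refine this.congr_fun ?_ |> fun h => h
  intro j
  simp only [co, sub_zero, smul_eq_mul]
  ring

theorem sqrt_mem {t : ℝ} (ht : t ∈ Ioo (0:ℝ) 1) : √t < 1 := by
  rw [Real.sqrt_lt' one_pos]
  simpa using ht.2

theorem Th_mem {t : ℝ} (ht : t ∈ Ioo (0:ℝ) 1) (θ : ℝ) : Th (t, θ) ∈ Metric.ball (0:ℂ) 1 := by
  rw [Metric.mem_ball, dist_zero_right, norm_Th]
  exact sqrt_mem ht

theorem co_summable {p : ℂ → ℂ} (hp : DifferentiableOn ℂ p (Metric.ball 0 1)) {t : ℝ}
    (ht : t ∈ Ioo (0:ℝ) 1) : Summable (fun j => ‖co p j‖ * √t ^ j) := by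
  have h1 : ((√t : ℝ) : ℂ) ∈ Metric.ball (0:ℂ) 1 := by
    rw [Metric.mem_ball, dist_zero_right, Complex.norm_real, Real.norm_of_nonneg (Real.sqrt_nonneg _)]
    exact sqrt_mem ht
  have h2 := (co_hasSum hp h1).summable.norm
  refine h2.congr ?_
  intro j
  rw [norm_mul, norm_pow, Complex.norm_real, Real.norm_of_nonneg (Real.sqrt_nonneg _)]

theorem avg_series {p : ℂ → ℂ} (hp : DifferentiableOn ℂ p (Metric.ball 0 1)) {t : ℝ}
    (ht : t ∈ Ioo (0:ℝ) 1) {e : ℝ → ℂ} (he : Integrable e mth) :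
    HasSum (fun j => co p j * ∫ θ, e θ * Th (t, θ) ^ j ∂mth) (∫ θ, e θ * p (Th (t, θ)) ∂mth) := by
  set F : ℕ → ℝ → ℂ := fun j θ => co p j * (e θ * Th (t, θ) ^ j) with hF
  have hT : ∀ j : ℕ, Continuous (fun θ : ℝ => Th (t, θ) ^ j) := by
    intro j
    have : Continuous (fun θ : ℝ => Th (t, θ)) := Th_cont.comp (by fun_prop)
    exact this.pow j
  have hi : ∀ j, Integrable (fun θ => e θ * Th (t, θ) ^ j) mth := by
    intro j
    have := he.bdd_mul (c := √t ^ j) (hT j).aestronglyMeasurable (by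
      filter_upwards with θ
      rw [norm_pow, norm_Th])
    refine this.congr ?_
    filter_upwards with θ
    ring
  have hFi : ∀ j, Integrable (F j) mth := fun j => (hi j).const_mul _
  have hsum : Summable fun j => ∫ θ, ‖F j θ‖ ∂mth := by
    have h1 := (co_summable hp ht).mul_right (∫ θ, ‖e θ‖ ∂mth)
    refine h1.congr ?_
    intro j
    rw [← integral_const_mul]
    apply integral_congr_ae
    filter_upwards with θ
    simp only [hF, norm_mul, norm_pow, norm_Th]
    ring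
  have h2 := hasSum_integral_of_summable_integral_norm hFi hsum
  have e1 : ∫ θ, ∑' j, F j θ ∂mth = ∫ θ, e θ * p (Th (t, θ)) ∂mth := by
    apply integral_congr_ae
    filter_upwards with θ
    have h3 := (co_hasSum hp (Th_mem ht θ)).mul_left (e θ)
    rw [← h3.tsum_eq]
    apply tsum_congr
    intro j
    simp only [hF]
    ring
  rw [e1] at h2
  refine h2.congr_fun ?_ |> fun h => h
  intro j
  simp only [hF]
  rw [integral_const_mul]

theorem avg_exp (k : ℤ) (hk : k ≠ 0) :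
    ∫ θ, Complex.exp ((k : ℂ) * θ * Complex.I) ∂mth = 0 := by
  rw [mth, integral_smul_measure]
  have h1 : ∫ θ in Ioo (-Real.pi) Real.pi, Complex.exp ((k : ℂ) * θ * Complex.I) =
      ∫ θ in (-Real.pi)..Real.pi, Complex.exp ((k * Complex.I) * θ) := by
    rw [intervalIntegral.integral_of_le (by linarith [Real.pi_pos]), integral_Ioc_eq_integral_Ioo]
    apply integral_congr_ae
    filter_upwards with θ
    congr 1
    ring
  rw [h1, integral_exp_mul_complex (mul_ne_zero (by exact_mod_cast hk) Complex.I_ne_zero)]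
  have h2 : Complex.exp (k * Complex.I * ((Real.pi : ℝ) : ℂ)) =
      Complex.exp (k * Complex.I * ((-Real.pi : ℝ) : ℂ)) := by
    have : k * Complex.I * ((Real.pi : ℝ) : ℂ) =
        k * Complex.I * ((-Real.pi : ℝ) : ℂ) + k * (2 * Real.pi * Complex.I) := by
      push_cast; ring
    rw [this, Complex.exp_add, Complex.exp_int_mul_two_pi_mul_I, mul_one]
  rw [h2, sub_self, zero_div, smul_zero]

theorem avg_mono {t : ℝ} (ht : t ∈ Ioo (0:ℝ) 1) (j m : ℕ) :
    ∫ θ, (conj (Th (t, θ))) ^ m * Th (t, θ) ^ j ∂mth = if j = m then (t:ℂ) ^ m else 0 := by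
  by_cases h : j = m
  · rw [if_pos h, h]
    have : ∀ θ : ℝ, (conj (Th (t, θ))) ^ m * Th (t, θ) ^ m = (t:ℂ) ^ m := by
      intro θ
      rw [← mul_pow, mul_comm, Complex.mul_conj, Complex.normSq_eq_norm_sq, norm_sq_Th ht.1.le]
    rw [integral_congr_ae (Eventually.of_forall this)]
    simp
  · rw [if_neg h]
    have : ∀ θ : ℝ, (conj (Th (t, θ))) ^ m * Th (t, θ) ^ j =
        ((√t : ℝ) : ℂ) ^ (m + j) * Complex.exp ((((j:ℤ) - (m:ℤ) : ℤ) : ℂ) * θ * Complex.I) := by
      intro θ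
      simp only [Th, map_mul, Complex.conj_ofReal, ← Complex.exp_conj, map_mul, Complex.conj_I,
        mul_pow, ← Complex.exp_nat_mul]
      have e : Complex.exp ((((j:ℤ) - (m:ℤ) : ℤ) : ℂ) * θ * Complex.I) =
          Complex.exp ((m:ℂ) * (θ * -Complex.I)) * Complex.exp ((j:ℂ) * (θ * Complex.I)) := by
        rw [← Complex.exp_add]
        congr 1
        push_cast
        ring
      rw [e, pow_add]
      ring
    rw [integral_congr_ae (Eventually.of_forall this), integral_const_mul, avg_exp _ (by omega),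
      mul_zero]

theorem conjTh_int (t : ℝ) (m : ℕ) : Integrable (fun θ : ℝ => (conj (Th (t, θ))) ^ m) mth := by
  have hc : Continuous (fun θ : ℝ => (conj (Th (t, θ))) ^ m) := by
    have : Continuous (fun θ : ℝ => Th (t, θ)) := Th_cont.comp (by fun_prop)
    fun_prop
  apply Integrable.of_bound hc.aestronglyMeasurable (√t ^ m)
  filter_upwards with θ
  rw [norm_pow, Complex.norm_conj, norm_Th]

theorem avg_coef {p : ℂ → ℂ} (hp : DifferentiableOn ℂ p (Metric.ball 0 1)) {t : ℝ}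
    (ht : t ∈ Ioo (0:ℝ) 1) (m : ℕ) :
    ∫ θ, (conj (Th (t, θ))) ^ m * p (Th (t, θ)) ∂mth = co p m * (t:ℂ) ^ m := by
  have h1 := avg_series hp ht (conjTh_int t m)
  have h2 : HasSum (fun j => co p j * ∫ θ, (conj (Th (t, θ))) ^ m * Th (t, θ) ^ j ∂mth)
      (co p m * ∫ θ, (conj (Th (t, θ))) ^ m * Th (t, θ) ^ m ∂mth) := by
    apply hasSum_single
    intro j hj
    rw [avg_mono ht, if_neg hj, mul_zero]
  rw [h1.unique h2, avg_mono ht, if_pos rfl]

theorem avg_conj {q : ℂ → ℂ} (hq : DifferentiableOn ℂ q (Metric.ball 0 1)) {t : ℝ}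
    (ht : t ∈ Ioo (0:ℝ) 1) {m : ℕ} (hm : 1 ≤ m) :
    ∫ θ, (conj (Th (t, θ))) ^ m * conj (q (Th (t, θ))) ∂mth = 0 := by
  have e : ∀ θ : ℝ, (conj (Th (t, θ))) ^ m * conj (q (Th (t, θ))) =
      conj ((conj (Th (t, θ))) ^ 0 * ((Th (t, θ)) ^ m * q (Th (t, θ)))) := by
    intro θ
    rw [pow_zero, one_mul, map_mul, map_pow]
  rw [integral_congr_ae (Eventually.of_forall e), integral_conj]
  have hd : DifferentiableOn ℂ (fun z => z ^ m * q z) (Metric.ball 0 1) :=
    (differentiable_pow m).differentiableOn.mul hq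
  have h1 := avg_coef hd ht 0
  have h2 : co (fun z => z ^ m * q z) 0 = 0 := by
    simp only [co, iteratedDeriv_zero]
    rw [zero_pow (by omega)]
    simp
  rw [h2, zero_mul] at h1
  rw [h1, map_zero]

theorem co_zero (p : ℂ → ℂ) : co p 0 = p 0 := by simp [co]

theorem exists_decomp {v : ℂ → ℂ} (hv : InnerProductSpace.HarmonicOnNhd v (Metric.ball 0 1)) :
    ∃ p q : ℂ → ℂ, DifferentiableOn ℂ p (Metric.ball 0 1) ∧
      DifferentiableOn ℂ q (Metric.ball 0 1) ∧ q 0 = 0 ∧
      ∀ z ∈ Metric.ball (0:ℂ) 1, v z = p z + conj (q z) := by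
  have h1 : InnerProductSpace.HarmonicOnNhd (fun z => (v z).re) (Metric.ball (0:ℂ) 1) :=
    hv.comp_CLM Complex.reCLM
  have h2 : InnerProductSpace.HarmonicOnNhd (fun z => (v z).im) (Metric.ball (0:ℂ) 1) :=
    hv.comp_CLM Complex.imCLM
  obtain ⟨F, hF, hFe⟩ := h1.exists_analyticOnNhd_ball_re_eq
  obtain ⟨G, hG, hGe⟩ := h2.exists_analyticOnNhd_ball_re_eq
  set q0 : ℂ → ℂ := fun z => (F z - Complex.I * G z) / 2 with hq0
  have hFd := hF.differentiableOn
  have hGd := hG.differentiableOn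
  refine ⟨fun z => (F z + Complex.I * G z) / 2 + conj (q0 0), fun z => q0 z - q0 0, ?_, ?_, ?_, ?_⟩
  · exact ((hFd.add (hGd.const_mul _)).div_const _).add_const _
  · exact ((hFd.sub (hGd.const_mul _)).div_const _).sub_const _
  · simp
  · intro z hz
    have e1 := hFe hz
    have e2 := hGe hz
    simp only at e1 e2
    simp only [hq0, map_sub, map_div₀, map_mul, Complex.conj_I, Complex.conj_ofNat]
    have e3 : v z = (F z).re + (G z).re * Complex.I := by
      rw [e1, e2]
      exact (Complex.re_add_im (v z)).symm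
    have e4 : F z + conj (F z) = 2 * ((F z).re : ℂ) := by
      rw [Complex.add_conj]; push_cast; ring
    have e5 : G z + conj (G z) = 2 * ((G z).re : ℂ) := by
      rw [Complex.add_conj]; push_cast; ring
    rw [e3]
    linear_combination (-1/2 : ℂ) * e4 - (Complex.I / 2) * e5

end Pool.Agent.R440.TQ
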