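import Pool.Agent.R440.TP.Modes

open MeasureTheory Set Finset Filter
open scoped ENNReal ContDiff ComplexConjugate Topology

namespace Pool.Agent.R440.TQ
open Pool.Agent.R440.TP

/-- smooth real functions with compact support in `(-1,1)` -/
def TG (χ : ℝ → ℝ) : Prop := ContDiff ℝ ∞ χ ∧ HasCompactSupport χ ∧ tsupport χ ⊆ Ioo (-1) 1

theorem TG.der {χ : ℝ → ℝ} (h : TG χ) : TG (deriv χ) :=
  ⟨(contDiff_infty_iff_deriv.1 h.1).2, h.2.1.deriv, (tsupport_deriv_subset).trans h.2.2⟩

theorem TG.iter {χ : ℝ → ℝ} (h : TG χ) (n : ℕ) : TG (deriv^[n] χ) := by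
  induction n with
  | zero => exact h
  | succ n ih => rw [Function.iterate_succ_apply']; exact ih.der

theorem TG.diff {χ : ℝ → ℝ} (h : TG χ) : Differentiable ℝ χ := (contDiff_infty_iff_deriv.1 h.1).1

theorem TG.mul {χ g : ℝ → ℝ} (h : TG χ) (hg : ContDiff ℝ ∞ g) : TG (fun t => g t * χ t) := by
  refine ⟨hg.mul h.1, h.2.1.mul_left, ?_⟩
  exact (closure_mono (Function.support_mul_subset_right _ _)).trans h.2.2

theorem half_moment (j : ℕ) : ∀ {η : ℝ → ℝ}, TG η →
    ∫ t in Ioi (0:ℝ), deriv^[j+1] η t * t ^ j = (-1) ^ (j+1) * j.factorial * η 0 := by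
  induction j with
  | zero =>
    intro η h
    have := h.2.1.integral_Ioi_deriv_eq (h.1.of_le (by simp)) 0
    simp only [zero_add, Function.iterate_one, pow_zero, mul_one, pow_one, Nat.factorial_zero,
      Nat.cast_one]
    rw [this]
    ring
  | succ j ih =>
    intro η h
    have h1 := h.iter (j+1)
    have hf : TG (fun t => t ^ (j+1) * deriv^[j+1] η t) := h1.mul (contDiff_id.pow _)
    have h2 := hf.2.1.integral_Ioi_deriv_eq (hf.1.of_le (by simp)) 0
    have hd : ∀ t, deriv (fun t => t ^ (j+1) * deriv^[j+1] η t) t =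
        ((j+1:ℕ):ℝ) * (deriv^[j+1] η t * t ^ j) + deriv^[j+1+1] η t * t ^ (j+1) := by
      intro t
      have e := (hasDerivAt_pow (j+1) t).mul (h1.diff t).hasDerivAt
      have e' : HasDerivAt (fun t => t ^ (j+1) * deriv^[j+1] η t) _ t := e
      rw [e'.deriv]
      rw [Function.iterate_succ_apply' deriv (j+1)]
      simp only [Nat.add_sub_cancel]
      ring
    rw [integral_congr_ae (Eventually.of_forall hd)] at h2
    have i1 : ∀ m : ℕ, IntegrableOn (fun t => deriv^[m] η t * t ^ j) (Ioi 0) := by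
      intro m
      have := (h.iter m).mul (contDiff_id.pow j)
      have h3 : Integrable (fun t : ℝ => t ^ j * deriv^[m] η t) :=
        this.1.continuous.integrable_of_hasCompactSupport this.2.1
      refine (h3.congr ?_).integrableOn
      filter_upwards with t
      ring
    have i2 : IntegrableOn (fun t => deriv^[j+1+1] η t * t ^ (j+1)) (Ioi 0) := by
      have := (h.iter (j+1+1)).mul (contDiff_id.pow (j+1))
      have h3 : Integrable (fun t : ℝ => t ^ (j+1) * deriv^[j+1+1] η t) :=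
        this.1.continuous.integrable_of_hasCompactSupport this.2.1
      refine (h3.congr ?_).integrableOn
      filter_upwards with t
      ring
    rw [integral_add ((i1 (j+1)).const_mul _) i2, integral_const_mul, ih h] at h2
    have h4 : (0:ℝ) ^ (j+1) * deriv^[j+1] η 0 = 0 := by
      rw [zero_pow (by omega), zero_mul]
    rw [h4] at h2
    rw [Nat.factorial_succ, pow_succ]
    push_cast at h2 ⊢
    linarith

/-- moments on `(0,1)`, complex form -/
theorem unit_moment {η : ℝ → ℝ} (h : TG η) {n j : ℕ} (hj : j < n) :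
    ∫ t, ((deriv^[n] η t : ℝ) : ℂ) * (t:ℂ) ^ j ∂mt =
      (((-1) ^ (j+1) * j.factorial * deriv^[n - 1 - j] η 0 : ℝ) : ℂ) := by
  have e1 : ∀ t : ℝ, ((deriv^[n] η t : ℝ) : ℂ) * (t:ℂ) ^ j =
      ((deriv^[n] η t * t ^ j : ℝ) : ℂ) := by
    intro t; push_cast; ring
  rw [integral_congr_ae (Eventually.of_forall e1), integral_complex_ofReal]
  congr 1
  have h1 := half_moment j (h.iter (n - 1 - j))
  have e2 : deriv^[j+1] (deriv^[n-1-j] η) = deriv^[n] η := by
    rw [← Function.iterate_add_apply]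
    congr 1
    congr 1
    omega
  rw [e2] at h1
  rw [← h1, TP.mt]
  symm
  apply setIntegral_eq_of_subset_of_forall_diff_eq_zero measurableSet_Ioi
  · intro t ht
    exact ht.1
  · intro t ht
    have : deriv^[n] η t = 0 := by
      apply image_eq_zero_of_notMem_tsupport
      intro h2
      have h3 := (h.iter n).2.2 h2
      exact ht.2 ⟨ht.1, h3.2⟩
    rw [this, zero_mul]

theorem iter_congr {f g : ℝ → ℝ} {x : ℝ} (h : f =ᶠ[𝓝 x] g) (m : ℕ) :
    deriv^[m] f =ᶠ[𝓝 x] deriv^[m] g := by
  induction m with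
  | zero => exact h
  | succ m ih =>
    rw [Function.iterate_succ_apply', Function.iterate_succ_apply']
    exact ih.deriv

/-- cut-off -/
noncomputable def bump : ContDiffBump (0:ℝ) := ⟨1/4, 1/2, by norm_num, by norm_num⟩

theorem bump_TG : TG bump := by
  refine ⟨bump.contDiff, bump.hasCompactSupport, ?_⟩
  rw [bump.tsupport_eq, Real.closedBall_eq_Icc]
  intro x hx
  have h1 : (0:ℝ) - 1/2 ≤ x := hx.1
  have h2 : x ≤ (0:ℝ) + 1/2 := hx.2
  exact ⟨by linarith, by linarith⟩

/-- the test functions `t^i ρ(t)` -/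
noncomputable def et (i : ℕ) (t : ℝ) : ℝ := t ^ i * bump t

theorem et_TG (i : ℕ) : TG (et i) := bump_TG.mul (contDiff_id.pow i)

theorem et_near (i : ℕ) : et i =ᶠ[𝓝 0] fun t => t ^ i := by
  have : ∀ᶠ t : ℝ in 𝓝 0, t ∈ Metric.closedBall (0:ℝ) bump.rIn :=
    Metric.closedBall_mem_nhds _ bump.rIn_pos
  filter_upwards [this] with t ht
  rw [et, bump.one_of_mem_closedBall ht, mul_one]

theorem et_jet_ne (i : ℕ) : deriv^[i] (et i) 0 ≠ 0 := by
  rw [(iter_congr (et_near i) i).self_of_nhds, iter_deriv_pow, Nat.sub_self, pow_zero, mul_one,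
    Finset.prod_ne_zero_iff]
  intro l hl h0
  have h1 : (i:ℝ) = l := by linarith
  have h2 : i = l := by exact_mod_cast h1
  have := Finset.mem_range.1 hl
  omega

theorem et_jet_zero {i m : ℕ} (h : m ≠ i) : deriv^[m] (et i) 0 = 0 := by
  rw [(iter_congr (et_near i) m).self_of_nhds, iter_deriv_pow]
  rcases lt_or_gt_of_ne h with h | h
  · rw [zero_pow (by omega), mul_zero]
  · rw [Finset.prod_eq_zero (Finset.mem_range.2 h) (by simp), zero_mul]

/-- extraction of a coefficient -/
theorem coef_zero {n i : ℕ} (hi : i < n) (c : ℕ → ℂ)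
    (h : ∫ t, ((deriv^[n] (et i) t : ℝ) : ℂ) * (∑ j ∈ Finset.range n, c j * (t:ℂ) ^ j) ∂TP.mt = 0) :
    c (n - 1 - i) = 0 := by
  have hint : ∀ j, Integrable (fun t : ℝ => c j * (((deriv^[n] (et i) t : ℝ) : ℂ) * (t:ℂ) ^ j))
      TP.mt := by
    intro j
    apply Integrable.const_mul
    have h1 := ((et_TG i).iter n).mul (contDiff_id.pow j)
    have h2 : Integrable (fun t : ℝ => ((t ^ j * deriv^[n] (et i) t : ℝ) : ℂ)) :=
      (h1.1.continuous.integrable_of_hasCompactSupport h1.2.1).ofReal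
    refine (h2.restrict (s := Ioo (0:ℝ) 1)).congr ?_
    filter_upwards with t
    push_cast
    ring
  have e : ∀ t : ℝ, ((deriv^[n] (et i) t : ℝ) : ℂ) * (∑ j ∈ Finset.range n, c j * (t:ℂ) ^ j) =
      ∑ j ∈ Finset.range n, c j * (((deriv^[n] (et i) t : ℝ) : ℂ) * (t:ℂ) ^ j) := by
    intro t
    rw [mul_sum]
    apply sum_congr rfl
    intro j _
    ring
  rw [integral_congr_ae (Eventually.of_forall e), integral_finsetSum _ (fun j _ => hint j)] at h
  have e2 : ∀ j ∈ Finset.range n, ∫ t, c j * (((deriv^[n] (et i) t : ℝ) : ℂ) * (t:ℂ) ^ j) ∂TP.mt =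
      c j * (((-1) ^ (j+1) * j.factorial * deriv^[n - 1 - j] (et i) 0 : ℝ) : ℂ) := by
    intro j hj
    rw [integral_const_mul, unit_moment (et_TG i) (Finset.mem_range.1 hj)]
  rw [sum_congr rfl e2, sum_eq_single (n - 1 - i)] at h
  · rcases mul_eq_zero.1 h with h1 | h1
    · exact h1
    · exfalso
      have h2 : (-1:ℝ) ^ (n - 1 - i + 1) * (n - 1 - i).factorial *
          deriv^[n - 1 - (n - 1 - i)] (et i) 0 = 0 := by exact_mod_cast h1
      have h3 : n - 1 - (n - 1 - i) = i := by omega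
      rw [h3] at h2
      rcases mul_eq_zero.1 h2 with h4 | h4
      · rcases mul_eq_zero.1 h4 with h5 | h5
        · exact absurd h5 (pow_ne_zero _ (by norm_num))
        · exact absurd h5 (by exact_mod_cast (Nat.factorial_ne_zero _))
      · exact et_jet_ne i h4
  · intro j hj hne
    have hj' := Finset.mem_range.1 hj
    rw [et_jet_zero (by omega)]
    simp
  · intro hn
    exact absurd (Finset.mem_range.2 (by omega)) hn

end Pool.Agent.R440.TQ
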