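import Pool.Agent.R440.TQ.Mem
import Pool.Agent.R440.TP.Final

open MeasureTheory Set Finset Filter
open scoped ENNReal ContDiff ComplexConjugate Topology InnerProductSpace

namespace Pool.Agent.R440.TQ
open Pool.Agent.R440.TP

theorem tmom (m : ℕ) : ∫ t, (t:ℂ) ^ m ∂TP.mt = 1 / ((m:ℂ) + 1) := by
  have h1 : ∫ t, (t:ℝ) ^ m ∂TP.mt = 1 / ((m:ℝ) + 1) := by
    rw [TP.mt, ← integral_Ioc_eq_integral_Ioo, ← intervalIntegral.integral_of_le zero_le_one,
      integral_pow]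
    simp
  have h2 : ∀ t : ℝ, (t:ℂ) ^ m = ((t ^ m : ℝ) : ℂ) := by intro t; push_cast; rfl
  rw [integral_congr_ae (Eventually.of_forall h2), integral_complex_ofReal, h1]
  push_cast
  rfl

theorem tmom_ne (m : ℕ) : ∫ t, (t:ℂ) ^ m ∂TP.mt ≠ 0 := by
  rw [tmom]
  have : (m:ℂ) + 1 ≠ 0 := by exact_mod_cast Nat.succ_ne_zero m
  exact one_div_ne_zero this

theorem ae_circ {e : ℂ → ℂ} (he : MemLp e 2 dA) :
    ∀ᵐ t ∂TP.mt, Integrable (fun θ => e (Th (t, θ))) mth :=
  (tr_int (memLp_int he (by norm_num))).prod_right_ae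

theorem circ_mul {e : ℝ → ℂ} (he : Integrable e mth) (t : ℝ) (a b : ℕ) :
    Integrable (fun θ => e θ * ((conj (Th (t, θ))) ^ a * Th (t, θ) ^ b)) mth := by
  have hT : Continuous (fun θ : ℝ => (conj (Th (t, θ))) ^ a * Th (t, θ) ^ b) := by
    have : Continuous (fun θ : ℝ => Th (t, θ)) := Th_cont.comp (by fun_prop)
    fun_prop
  have := he.bdd_mul (c := √t ^ a * √t ^ b) hT.aestronglyMeasurable (by
      filter_upwards with θ
      rw [norm_mul, norm_pow, norm_pow, Complex.norm_conj, norm_Th])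
  refine this.congr ?_
  filter_upwards with θ
  ring

theorem Th_one {t : ℝ} (ht : 0 ≤ t) (θ : ℝ) : conj (Th (t, θ)) * Th (t, θ) = (t:ℂ) := by
  rw [mul_comm, Complex.mul_conj, Complex.normSq_eq_norm_sq, norm_sq_Th ht]

theorem Th_red {t : ℝ} (ht : 0 ≤ t) (θ : ℝ) {a m : ℕ} (h : a ≤ m) :
    (conj (Th (t, θ))) ^ a * Th (t, θ) ^ m = (t:ℂ) ^ a * Th (t, θ) ^ (m - a) := by
  obtain ⟨l, rfl⟩ := Nat.exists_eq_add_of_le h
  rw [Nat.add_sub_cancel_left, pow_add, ← mul_assoc, ← mul_pow, Th_one ht]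

theorem int3 {e q : ℂ → ℂ} (he : MemLp e 2 dA) (hq : MemLp q 2 dA) {g : ℂ → ℂ}
    (hg : Continuous g) : Integrable (fun z => e z * q z * g z) dA :=
  int_cont (he.integrable_mul hq) hg

theorem key_int {n : ℕ} {e q : ℂ → ℂ} (he : MemLp e 2 dA) (hpe : IsPoly n e)
    (hq : DifferentiableOn ℂ q (Metric.ball 0 1)) (hq2 : MemLp q 2 dA) {s : ℕ}
    (hs : ∀ j ≤ s, co q j = 0) {a b : ℕ} (ha : a ≤ s + 1) (hab : n + a ≤ b + (s + 2)) :
    ∫ z, e z * q z * ((conj z) ^ a * z ^ b) ∂dA =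
      ∫ t, co q (s+1) * (t:ℂ) ^ a * Vn e (b + (s + 1) - a) t ∂TP.mt := by
  have hint : Integrable (fun z => e z * q z * ((conj z) ^ a * z ^ b)) dA :=
    int3 he hq2 (by fun_prop)
  rw [tr_eq hint]
  have hz : ∀ᵐ t ∂TP.mt, ∀ k, n ≤ k → Vn e k t = 0 := by
    rw [ae_all_iff]
    intro k
    by_cases hk : n ≤ k
    · filter_upwards [neg_a he hpe hk] with t ht _
      exact ht
    · exact Eventually.of_forall fun t h => absurd h hk
  apply integral_congr_ae
  filter_upwards [ae_mt, ae_circ he, hz] with t ht hi hz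
  have hE := circ_mul hi t a b
  have h1 := avg_series hq ht hE
  have hterm : ∀ j, a ≤ j → ∫ θ, e (Th (t, θ)) * ((conj (Th (t, θ))) ^ a * Th (t, θ) ^ b) *
      Th (t, θ) ^ j ∂mth = (t:ℂ) ^ a * Vn e (b + j - a) t := by
    intro j hj
    rw [Vn, ← integral_const_mul]
    apply integral_congr_ae
    filter_upwards with θ
    have h2 := Th_red ht.1.le θ (a := a) (m := b + j) (by omega)
    rw [pow_add] at h2
    linear_combination (e (Th (t, θ))) * h2
  have h2 : HasSum (fun j => co q j * ∫ θ, e (Th (t, θ)) * ((conj (Th (t, θ))) ^ a *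
      Th (t, θ) ^ b) * Th (t, θ) ^ j ∂mth)
      (co q (s+1) * ∫ θ, e (Th (t, θ)) * ((conj (Th (t, θ))) ^ a *
      Th (t, θ) ^ b) * Th (t, θ) ^ (s+1) ∂mth) := by
    apply hasSum_single
    intro j hj
    by_cases hjs : j ≤ s
    · rw [hs j hjs, zero_mul]
    · rw [hterm j (by omega), hz _ (by omega), mul_zero, mul_zero]
  have h3 := h1.unique h2
  rw [hterm (s+1) ha] at h3
  rw [mul_assoc, ← h3]
  apply integral_congr_ae
  filter_upwards with θ
  ring

theorem split_v {n : ℕ} {e v p q : ℂ → ℂ} (he : MemLp e 2 dA) (hpe : IsPoly n e)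
    (hq : DifferentiableOn ℂ q (Metric.ball 0 1)) (hp2 : MemLp p 2 dA) (hq2 : MemLp q 2 dA)
    (hvd : ∀ z ∈ Metric.ball (0:ℂ) 1, v z = p z + conj (q z))
    {s : ℕ} (hs : ∀ j ≤ s, co q j = 0) {a b : ℕ} (ha : a ≤ s + 1) (hab : n + a ≤ b + (s + 2)) :
    ∫ z, conj (e z) * (v z * (z ^ a * (conj z) ^ b)) ∂dA =
      ∫ z, conj (e z) * (p z * (z ^ a * (conj z) ^ b)) ∂dA +
      conj (∫ t, co q (s+1) * (t:ℂ) ^ a * Vn e (b + (s + 1) - a) t ∂TP.mt) := by
  have he' : MemLp (fun z => conj (e z)) 2 dA := he.star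
  have hq' : MemLp (fun z => conj (q z)) 2 dA := hq2.star
  have i1 : Integrable (fun z => conj (e z) * (p z * (z ^ a * (conj z) ^ b))) dA := by
    refine (int3 he' hp2 (g := fun z => z ^ a * (conj z) ^ b) (by fun_prop)).congr ?_
    filter_upwards with z
    ring
  have i2 : Integrable (fun z => conj (e z * q z * ((conj z) ^ a * z ^ b))) dA := by
    refine (int3 he' hq' (g := fun z => z ^ a * (conj z) ^ b) (by fun_prop)).congr ?_
    filter_upwards with z
    simp only [map_mul, map_pow, Complex.conj_conj]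
  rw [← key_int he hpe hq hq2 hs ha hab, ← integral_conj, ← integral_add i1 i2]
  apply integral_congr_ae
  filter_upwards [ae_ball] with z hz
  rw [hvd z hz]
  simp only [map_mul, map_pow, Complex.conj_conj]
  ring

/-- the element `z^a z̄^d` of `A²ₙ` -/
noncomputable def mo (n a d : ℕ) (hd : d < n) : A2 n :=
  mkA (g := fun z => z ^ a * (conj z) ^ d) (cont_two (by fun_prop))
    (isPoly_mono hd (differentiable_pow a))

theorem mo_coe (n a d : ℕ) (hd : d < n) :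
    ((mo n a d hd : A2 n) : Lp ℂ 2 dA) =ᵐ[dA] fun z => z ^ a * (conj z) ^ d := mkA_coe _ _

theorem shift_F {n : ℕ} {F : ℂ → ℂ} (hF : MemLp F ∞ dA) (a b c d : ℕ) (hb : b < n)
    (hc : c + 1 < n) (hc' : c < n) :
    ⟪mo n a c hc', toep n F hF (mo n (d+1) b hb)⟫_ℂ =
      ⟪mo n a (c+1) hc, toep n F hF (mo n d b hb)⟫_ℂ := by
  rw [toep_inner, toep_inner]
  apply integral_congr_ae
  filter_upwards [mo_coe n a c hc', mo_coe n (d+1) b hb, mo_coe n a (c+1) hc, mo_coe n d b hb]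
    with z h1 h2 h3 h4
  rw [h1, h2, h3, h4]
  simp only [map_mul, map_pow, Complex.conj_conj]
  ring

theorem toep_v {r : ℕ} {v p q : ℂ → ℂ} (hv : MemLp v ∞ dA)
    (hp : DifferentiableOn ℂ p (Metric.ball 0 1))
    (hq : DifferentiableOn ℂ q (Metric.ball 0 1)) (hp2 : MemLp p 2 dA) (hq2 : MemLp q 2 dA)
    (hvd : ∀ z ∈ Metric.ball (0:ℂ) 1, v z = p z + conj (q z))
    {s : ℕ} (hs : ∀ j ≤ s, co q j = 0) :
    (toep (r+2) v hv (mo (r+2) s (r+1) (by omega)) : Lp ℂ 2 dA) =ᵐ[dA]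
      fun z => p z * (z ^ s * (conj z) ^ (r+1)) := by
  have hg : MemLp (fun z => p z * z ^ s * (conj z) ^ (r+1)) 2 dA := by
    have h1 : MemLp (fun z : ℂ => z ^ s * (conj z) ^ (r+1)) ∞ dA := cont_top (by fun_prop)
    refine (mul_top h1 hp2).ae_eq ?_
    filter_upwards with z
    ring
  have hP : IsPoly (r+2) (fun z => p z * z ^ s * (conj z) ^ (r+1)) :=
    isPoly_ball (by omega) (hp.mul (differentiable_pow s).differentiableOn)
  have key : toep (r+2) v hv (mo (r+2) s (r+1) (by omega)) = mkA hg hP := by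
    apply ext_inner_left ℂ
    intro e
    have h1 : ⟪e, mkA hg hP⟫_ℂ = ⟪(e : Lp ℂ 2 dA), ((mkA hg hP : A2 (r+2)) : Lp ℂ 2 dA)⟫_ℂ := rfl
    rw [toep_inner, h1, inner_Lp]
    have h2 := split_v (n := r+2) (Lp.memLp (e : Lp ℂ 2 dA)) (mem_A2.1 e.2) hq hp2 hq2 hvd hs
      (a := s) (b := r+1) (by omega) (by omega)
    have h3 : ∫ t, co q (s+1) * (t:ℂ) ^ s * Vn (e : Lp ℂ 2 dA) (r + 1 + (s + 1) - s) t ∂TP.mt = 0 := by
      have h4 := neg_a (n := r+2) (Lp.memLp (e : Lp ℂ 2 dA)) (mem_A2.1 e.2)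
        (k := r + 1 + (s + 1) - s) (by omega)
      have h5 : (fun t : ℝ => co q (s+1) * (t:ℂ) ^ s * Vn (e : Lp ℂ 2 dA) (r + 1 + (s + 1) - s) t)
          =ᵐ[TP.mt] fun _ => 0 := by
        filter_upwards [h4] with t ht
        rw [ht, mul_zero]
      rw [integral_congr_ae h5]
      simp
    rw [h3, map_zero, add_zero] at h2
    refine Eq.trans ?_ (h2.trans ?_)
    · apply integral_congr_ae
      filter_upwards [mo_coe (r+2) s (r+1) (by omega)] with z hz
      rw [hz]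
    · apply integral_congr_ae
      filter_upwards [mkA_coe hg hP] with z hz
      rw [hz]
      ring
  rw [key]
  filter_upwards [mkA_coe hg hP] with z hz
  rw [hz]
  ring

theorem co_p_zero {r : ℕ} {u v F : ℂ → ℂ} (hu : MemLp u ∞ dA) (hv : MemLp v ∞ dA)
    (hF : MemLp F ∞ dA) {p q p' q' : ℂ → ℂ} (hp : DifferentiableOn ℂ p (Metric.ball 0 1))
    (hq : DifferentiableOn ℂ q (Metric.ball 0 1)) (hp' : DifferentiableOn ℂ p' (Metric.ball 0 1))
    (hq' : DifferentiableOn ℂ q' (Metric.ball 0 1)) (hq0 : q 0 = 0)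
    (hvd : ∀ z ∈ Metric.ball (0:ℂ) 1, v z = p z + conj (q z))
    (hud : ∀ z ∈ Metric.ball (0:ℂ) 1, u z = p' z + conj (q' z))
    (hT : ∀ h : A2 (r+2), toep (r+2) u hu (toep (r+2) v hv h) = toep (r+2) F hF h)
    {s : ℕ} (hs : ∀ j ≤ s, co q j = 0) (hs1 : co q (s+1) ≠ 0) (k : ℕ) : co p' (k+1) = 0 := by
  obtain ⟨hp2, hq2⟩ := memLp_parts hv hp hq hq0 hvd
  have hr1 : r + 1 < r + 2 := by omega
  have hr0 : r < r + 2 := by omega
  set B : A2 (r+2) := toep (r+2) (fun z => conj (u z)) (memLp_conj hu) (mo (r+2) k r hr0) with hB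
  -- E1
  have E1 := shift_F hF k (r+1) r s hr1 hr1 hr0
  rw [← hT, ← hT, toep_adj hu, ← hB] at E1
  -- left-hand side
  have L1 : ⟪B, toep (r+2) v hv (mo (r+2) (s+1) (r+1) hr1)⟫_ℂ =
      ∫ z, conj ((B : Lp ℂ 2 dA) z) * (p z * (z ^ (s+1) * (conj z) ^ (r+1))) ∂dA +
      conj (∫ t, co q (s+1) * (t:ℂ) ^ (s+1) * Vn (B : Lp ℂ 2 dA) (r+1) t ∂TP.mt) := by
    have h2 := split_v (n := r+2) (Lp.memLp (B : Lp ℂ 2 dA)) (mem_A2.1 B.2) hq hp2 hq2 hvd hs
      (a := s+1) (b := r+1) (by omega) (by omega)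
    rw [show r + 1 + (s + 1) - (s + 1) = r + 1 by omega] at h2
    rw [← h2, toep_inner]
    apply integral_congr_ae
    filter_upwards [mo_coe (r+2) (s+1) (r+1) hr1] with z hz
    rw [hz]
  -- right-hand side
  have hg : MemLp (fun z => p z * z ^ (s+1) * (conj z) ^ (r+1)) 2 dA := by
    have h1 : MemLp (fun z : ℂ => z ^ (s+1) * (conj z) ^ (r+1)) ∞ dA := cont_top (by fun_prop)
    refine (mul_top h1 hp2).ae_eq ?_
    filter_upwards with z
    ring
  have hP : IsPoly (r+2) (fun z => p z * z ^ (s+1) * (conj z) ^ (r+1)) :=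
    isPoly_ball (by omega) (hp.mul (differentiable_pow (s+1)).differentiableOn)
  have R1 : ⟪mo (r+2) k (r+1) hr1, toep (r+2) u hu (toep (r+2) v hv (mo (r+2) s (r+1) hr1))⟫_ℂ =
      ∫ z, conj ((B : Lp ℂ 2 dA) z) * (p z * (z ^ (s+1) * (conj z) ^ (r+1))) ∂dA := by
    have h1 : ⟪mo (r+2) k (r+1) hr1, toep (r+2) u hu (toep (r+2) v hv (mo (r+2) s (r+1) hr1))⟫_ℂ =
        ⟪mo (r+2) k r hr0, toep (r+2) u hu (mkA hg hP)⟫_ℂ := by
      rw [toep_inner, toep_inner]
      apply integral_congr_ae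
      filter_upwards [mo_coe (r+2) k (r+1) hr1, mo_coe (r+2) k r hr0, mkA_coe hg hP,
        toep_v (r := r) hv hp hq hp2 hq2 hvd hs] with z h1 h2 h3 h4
      rw [h1, h2, h3, h4]
      simp only [map_mul, map_pow, Complex.conj_conj]
      ring
    rw [h1, toep_adj hu, ← hB]
    have h2 : ⟪B, mkA hg hP⟫_ℂ = ⟪(B : Lp ℂ 2 dA), ((mkA hg hP : A2 (r+2)) : Lp ℂ 2 dA)⟫_ℂ := rfl
    rw [h2, inner_Lp]
    apply integral_congr_ae
    filter_upwards [mkA_coe hg hP] with z hz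
    rw [hz]
    ring
  rw [L1, R1] at E1
  have h0 : ∫ t, co q (s+1) * (t:ℂ) ^ (s+1) * Vn (B : Lp ℂ 2 dA) (r+1) t ∂TP.mt = 0 := by
    have := add_eq_left.1 E1
    exact (map_eq_zero _).1 this
  obtain ⟨β, hβ⟩ := neg_b (n := r+2) (by omega) (Lp.memLp (B : Lp ℂ 2 dA)) (mem_A2.1 B.2)
  rw [show r + 2 - 1 = r + 1 by omega] at hβ
  have hβ0 : β = 0 := by
    have h1 : (fun t : ℝ => co q (s+1) * (t:ℂ) ^ (s+1) * Vn (B : Lp ℂ 2 dA) (r+1) t)
          =ᵐ[TP.mt] fun t => (co q (s+1) * β) * (t:ℂ) ^ (s+1+(r+1)) := by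
      filter_upwards [hβ] with t ht
      rw [ht, pow_add]
      ring
    rw [integral_congr_ae h1, integral_const_mul] at h0
    rcases mul_eq_zero.1 h0 with h2 | h2
    · exact (mul_eq_zero.1 h2).resolve_left hs1
    · exact absurd h2 (tmom_ne _)
  -- moment of B
  have hBm : ∫ z, (B : Lp ℂ 2 dA) z * z ^ (r+1) ∂dA = 0 := by
    have hi : Integrable (fun z => (B : Lp ℂ 2 dA) z * z ^ (r+1)) dA :=
      memLp_int (upow_mem (Lp.memLp (B : Lp ℂ 2 dA)) (r+1)) (by norm_num)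
    rw [tr_eq hi]
    have h1 : (fun t => ∫ θ, (B : Lp ℂ 2 dA) (Th (t, θ)) * (Th (t, θ)) ^ (r+1) ∂mth)
        =ᵐ[TP.mt] fun _ => 0 := by
      filter_upwards [hβ] with t ht
      rw [hβ0, zero_mul] at ht
      exact ht
    rw [integral_congr_ae h1]
    simp
  have hE : ⟪mo (r+2) 0 (r+1) hr1, B⟫_ℂ = 0 := by
    have h2 : ⟪mo (r+2) 0 (r+1) hr1, B⟫_ℂ =
      ⟪((mo (r+2) 0 (r+1) hr1 : A2 (r+2)) : Lp ℂ 2 dA), (B : Lp ℂ 2 dA)⟫_ℂ := rfl
    rw [h2, inner_Lp, ← hBm]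
    apply integral_congr_ae
    filter_upwards [mo_coe (r+2) 0 (r+1) hr1] with z hz
    rw [hz]
    simp only [map_mul, map_pow, Complex.conj_conj]
    ring
  rw [hB, toep_inner] at hE
  have hU : ∫ z, u z * ((conj z) ^ (r+k+1) * z ^ r) ∂dA = 0 := by
    have h1 : conj (∫ z, u z * ((conj z) ^ (r+k+1) * z ^ r) ∂dA) = 0 := by
      rw [← integral_conj, ← hE]
      apply integral_congr_ae
      filter_upwards [mo_coe (r+2) 0 (r+1) hr1, mo_coe (r+2) k r hr0] with z h1 h2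
      rw [h1, h2]
      simp only [map_mul, map_pow, Complex.conj_conj]
      ring
    exact (map_eq_zero _).1 h1
  have hUi : Integrable (fun z => u z * ((conj z) ^ (r+k+1) * z ^ r)) dA :=
    int_cont (memLp_int hu (by norm_num)) (by fun_prop)
  rw [tr_eq hUi] at hU
  have h1 : (fun t => ∫ θ, u (Th (t, θ)) * ((conj (Th (t, θ))) ^ (r+k+1) * (Th (t, θ)) ^ r) ∂mth)
      =ᵐ[TP.mt] fun t => co p' (k+1) * (t:ℂ) ^ (r + k + 1) := by
    filter_upwards [ae_mt] with t ht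
    have i1 : Integrable (fun θ : ℝ => (conj (Th (t, θ))) ^ (k+1) * p' (Th (t, θ))) mth := by
      refine (circ_mul (circ_int hp' ht) t (k+1) 0).congr ?_
      filter_upwards with θ
      ring
    have i2 : Integrable (fun θ : ℝ => (conj (Th (t, θ))) ^ (k+1) * conj (q' (Th (t, θ)))) mth := by
      have h3 : Integrable (fun θ : ℝ => conj (q' (Th (t, θ)))) mth :=
        (Complex.conjCLE.toContinuousLinearMap.integrable_comp (circ_int hq' ht))
      refine (circ_mul h3 t (k+1) 0).congr ?_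
      filter_upwards with θ
      ring
    have h2 : ∀ θ : ℝ, u (Th (t, θ)) * ((conj (Th (t, θ))) ^ (r+k+1) * (Th (t, θ)) ^ r) =
        (t:ℂ) ^ r * ((conj (Th (t, θ))) ^ (k+1) * p' (Th (t, θ)) +
          (conj (Th (t, θ))) ^ (k+1) * conj (q' (Th (t, θ)))) := by
      intro θ
      rw [hud _ (Th_mem ht θ), ← Th_one ht.1.le θ, mul_pow]
      ring
    rw [integral_congr_ae (Eventually.of_forall h2), integral_const_mul, integral_add i1 i2,
      avg_coef hp' ht, avg_conj hq' ht (by omega)]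
    ring
  rw [integral_congr_ae h1, integral_const_mul] at hU
  exact (mul_eq_zero.1 hU).resolve_right (tmom_ne _)

theorem harm_main {n : ℕ} (hn : 2 ≤ n) {u v F : ℂ → ℂ} (hu : MemLp u ∞ dA) (hv : MemLp v ∞ dA)
    (hF : MemLp F ∞ dA)
    (hhu : InnerProductSpace.HarmonicOnNhd u (Metric.ball 0 1))
    (hhv : InnerProductSpace.HarmonicOnNhd v (Metric.ball 0 1))
    (hT : ∀ h : A2 n, toep n u hu (toep n v hv h) = toep n F hF h) :
    DifferentiableOn ℂ (fun z => conj (u z)) (Metric.ball 0 1) ∨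
      DifferentiableOn ℂ v (Metric.ball 0 1) := by
  obtain ⟨r, rfl⟩ : ∃ r, n = r + 2 := ⟨n - 2, by omega⟩
  obtain ⟨p, q, hp, hq, hq0, hvd⟩ := exists_decomp hhv
  obtain ⟨p', q', hp', hq', -, hud⟩ := exists_decomp hhu
  by_cases hco : ∀ j, co q j = 0
  · right
    apply hp.congr
    intro z hz
    have h1 := co_hasSum hq hz
    have h2 : HasSum (fun j : ℕ => co q j * z ^ j) 0 := by
      simp only [hco, zero_mul]
      exact hasSum_zero
    rw [hvd z hz, h1.unique h2, map_zero, add_zero]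
  · left
    push Not at hco
    obtain ⟨m, hm, hmin⟩ : ∃ m, co q m ≠ 0 ∧ ∀ j < m, co q j = 0 := by
      classical
      refine ⟨Nat.find hco, Nat.find_spec hco, ?_⟩
      intro j hj
      by_contra h
      exact Nat.find_min hco hj h
    have hm0 : m ≠ 0 := by
      rintro rfl
      exact hm (by rw [co_zero, hq0])
    obtain ⟨s, rfl⟩ := Nat.exists_eq_succ_of_ne_zero hm0
    have hk := co_p_zero hu hv hF hp hq hp' hq' hq0 hvd hud hT
      (s := s) (fun j hj => hmin j (by omega)) hm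
    have hc : ∀ z ∈ Metric.ball (0:ℂ) 1, p' z = co p' 0 := by
      intro z hz
      have h1 := co_hasSum hp' hz
      have h2 : HasSum (fun j : ℕ => co p' j * z ^ j) (co p' 0 * z ^ 0) := by
        apply hasSum_single
        intro j hj
        obtain ⟨i, rfl⟩ := Nat.exists_eq_succ_of_ne_zero hj
        rw [hk i, zero_mul]
      rw [h1.unique h2, pow_zero, mul_one]
    have hd : DifferentiableOn ℂ (fun z => conj (co p' 0) + q' z) (Metric.ball 0 1) :=
      hq'.const_add _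
    apply hd.congr
    intro z hz
    rw [hud z hz, hc z hz, map_add, Complex.conj_conj]

end Pool.Agent.R440.TQ
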