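import Pool.Agent.R440.TQ.Ana

open MeasureTheory Set Finset Filter
open scoped ENNReal ContDiff ComplexConjugate Topology

namespace Pool.Agent.R440.TQ
open Pool.Agent.R440.TP

theorem aesm {p : ℂ → ℂ} (hp : DifferentiableOn ℂ p (Metric.ball 0 1)) :
    AEStronglyMeasurable p dA := by
  rw [dA]
  exact (hp.continuousOn.aestronglyMeasurable measurableSet_ball).smul_measure _

theorem ess_bound {v : ℂ → ℂ} (hv : MemLp v ∞ dA) : ∃ C : ℝ, ∀ᵐ z ∂dA, ‖v z‖ ≤ C := by
  refine ⟨(eLpNormEssSup v dA).toReal, ?_⟩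
  filter_upwards [ae_le_eLpNormEssSup (f := v) (μ := dA)] with z hz
  have h1 : eLpNormEssSup v dA ≠ ⊤ := by
    have := hv.2
    rw [eLpNorm_exponent_top] at this
    exact this.ne
  have h2 := ENNReal.toReal_mono h1 hz
  rwa [toReal_enorm] at h2

theorem circ_cont {p : ℂ → ℂ} (hp : DifferentiableOn ℂ p (Metric.ball 0 1)) {t : ℝ}
    (ht : t ∈ Ioo (0:ℝ) 1) : Continuous (fun θ : ℝ => p (Th (t, θ))) := by
  have h1 : Continuous (fun θ : ℝ => Th (t, θ)) := Th_cont.comp (by fun_prop)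
  exact hp.continuousOn.comp_continuous h1 (fun θ => Th_mem ht θ)

theorem circ_bound {p : ℂ → ℂ} (hp : DifferentiableOn ℂ p (Metric.ball 0 1)) {t : ℝ}
    (ht : t ∈ Ioo (0:ℝ) 1) : ∃ C : ℝ, ∀ θ : ℝ, ‖p (Th (t, θ))‖ ≤ C := by
  refine ⟨∑' j, ‖co p j‖ * √t ^ j, fun θ => ?_⟩
  apply (co_hasSum hp (Th_mem ht θ)).norm_le_of_bounded (co_summable hp ht).hasSum
  intro j
  rw [norm_mul, norm_pow, norm_Th]

theorem circ_int {p : ℂ → ℂ} (hp : DifferentiableOn ℂ p (Metric.ball 0 1)) {t : ℝ}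
    (ht : t ∈ Ioo (0:ℝ) 1) : Integrable (fun θ : ℝ => p (Th (t, θ))) mth := by
  obtain ⟨C, hC⟩ := circ_bound hp ht
  exact Integrable.of_bound (circ_cont hp ht).aestronglyMeasurable C (Eventually.of_forall hC)

theorem circ_sq {p : ℂ → ℂ} (hp : DifferentiableOn ℂ p (Metric.ball 0 1)) {t : ℝ}
    (ht : t ∈ Ioo (0:ℝ) 1) : Integrable (fun θ : ℝ => ‖p (Th (t, θ))‖ ^ 2) mth := by
  obtain ⟨C, hC⟩ := circ_bound hp ht
  apply Integrable.of_bound ((circ_cont hp ht).norm.pow 2).aestronglyMeasurable (C ^ 2)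
  filter_upwards with θ
  simp only [Pi.pow_apply]
  rw [Real.norm_of_nonneg (sq_nonneg _)]
  exact pow_le_pow_left₀ (norm_nonneg _) (hC θ) 2

theorem circ_parseval {p q : ℂ → ℂ} (hp : DifferentiableOn ℂ p (Metric.ball 0 1))
    (hq : DifferentiableOn ℂ q (Metric.ball 0 1)) (hq0 : q 0 = 0) {t : ℝ}
    (ht : t ∈ Ioo (0:ℝ) 1) :
    ∫ θ, ‖p (Th (t, θ)) + conj (q (Th (t, θ)))‖ ^ 2 ∂mth =
      ∫ θ, ‖p (Th (t, θ))‖ ^ 2 ∂mth + ∫ θ, ‖q (Th (t, θ))‖ ^ 2 ∂mth := by
  have hpq : DifferentiableOn ℂ (fun z => p z * q z) (Metric.ball 0 1) := hp.mul hq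
  have h0 : ∫ θ, p (Th (t, θ)) * q (Th (t, θ)) ∂mth = 0 := by
    have := avg_coef hpq ht 0
    simp only [pow_zero, one_mul, mul_one] at this
    rw [this, co_zero, hq0, mul_zero]
  have h1 : ∫ θ, (p (Th (t, θ)) * q (Th (t, θ))).re ∂mth = 0 := by
    have := integral_re (circ_int hpq ht)
    simp only [RCLike.re_eq_complex_re] at this
    rw [this, h0, Complex.zero_re]
  have e : ∀ θ : ℝ, ‖p (Th (t, θ)) + conj (q (Th (t, θ)))‖ ^ 2 =
      ‖p (Th (t, θ))‖ ^ 2 + ‖q (Th (t, θ))‖ ^ 2 + 2 * (p (Th (t, θ)) * q (Th (t, θ))).re := by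
    intro θ
    rw [← Complex.normSq_eq_norm_sq, ← Complex.normSq_eq_norm_sq, ← Complex.normSq_eq_norm_sq,
      Complex.normSq_add, Complex.conj_conj, Complex.normSq_conj]
  have hre : Integrable (fun θ : ℝ => (p (Th (t, θ)) * q (Th (t, θ))).re) mth :=
    (circ_int hpq ht).re
  rw [integral_congr_ae (Eventually.of_forall e), integral_add, integral_add (circ_sq hp ht)
    (circ_sq hq ht), integral_const_mul, h1, mul_zero, add_zero]
  · exact (circ_sq hp ht).add (circ_sq hq ht)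
  · exact hre.const_mul _

theorem memLp_parts {v p q : ℂ → ℂ} (hv : MemLp v ∞ dA)
    (hp : DifferentiableOn ℂ p (Metric.ball 0 1)) (hq : DifferentiableOn ℂ q (Metric.ball 0 1))
    (hq0 : q 0 = 0) (h : ∀ z ∈ Metric.ball (0:ℂ) 1, v z = p z + conj (q z)) :
    MemLp p 2 dA ∧ MemLp q 2 dA := by
  obtain ⟨C, hC⟩ := ess_bound hv
  have h1 : ∀ᵐ x ∂(TP.mt.prod mth), ‖v (Th x)‖ ≤ C := mp_Th.quasiMeasurePreserving.ae hC
  have h2 := Measure.ae_ae_of_ae_prod h1
  have hb : ∀ᵐ t ∂TP.mt, ∫ θ, ‖p (Th (t, θ))‖ ^ 2 ∂mth ≤ C ^ 2 ∧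
      ∫ θ, ‖q (Th (t, θ))‖ ^ 2 ∂mth ≤ C ^ 2 := by
    filter_upwards [h2, ae_mt] with t h3 ht
    have e1 := circ_parseval hp hq hq0 ht
    have e2 : ∫ θ, ‖p (Th (t, θ)) + conj (q (Th (t, θ)))‖ ^ 2 ∂mth ≤ C ^ 2 := by
      have hi : Integrable (fun θ : ℝ => ‖p (Th (t, θ)) + conj (q (Th (t, θ)))‖ ^ 2) mth := by
        by_contra hn
        have := integral_undef hn
        obtain ⟨C1, hC1⟩ := circ_bound hp ht
        obtain ⟨C2, hC2⟩ := circ_bound hq ht
        apply hn
        have hc : Continuous (fun θ : ℝ => p (Th (t, θ)) + conj (q (Th (t, θ)))) :=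
          (circ_cont hp ht).add (Complex.continuous_conj.comp (circ_cont hq ht))
        apply Integrable.of_bound (hc.norm.pow 2).aestronglyMeasurable ((C1 + C2) ^ 2)
        filter_upwards with θ
        simp only [Pi.pow_apply]
        rw [Real.norm_of_nonneg (sq_nonneg _)]
        apply pow_le_pow_left₀ (norm_nonneg _)
        refine (norm_add_le _ _).trans ?_
        rw [Complex.norm_conj]
        exact add_le_add (hC1 θ) (hC2 θ)
      have : ∫ θ, ‖p (Th (t, θ)) + conj (q (Th (t, θ)))‖ ^ 2 ∂mth ≤ ∫ θ, C ^ 2 ∂mth := by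
        apply integral_mono_ae hi (integrable_const _)
        filter_upwards [h3] with θ h4
        rw [h _ (Th_mem ht θ)] at h4
        exact pow_le_pow_left₀ (norm_nonneg _) h4 2
      simpa using this
    have n1 : 0 ≤ ∫ θ, ‖p (Th (t, θ))‖ ^ 2 ∂mth := integral_nonneg fun _ => sq_nonneg _
    have n2 : 0 ≤ ∫ θ, ‖q (Th (t, θ))‖ ^ 2 ∂mth := integral_nonneg fun _ => sq_nonneg _
    constructor <;> linarith
  have key : ∀ w : ℂ → ℂ, DifferentiableOn ℂ w (Metric.ball 0 1) →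
      (∀ᵐ t ∂TP.mt, ∫ θ, ‖w (Th (t, θ))‖ ^ 2 ∂mth ≤ C ^ 2) → MemLp w 2 dA := by
    intro w hw hwb
    rw [memLp_two_iff_integrable_sq_norm (aesm hw)]
    have hm : AEStronglyMeasurable (fun z => ‖w z‖ ^ 2) dA := (aesm hw).norm.pow 2
    rw [← mp_Th.integrable_comp hm]
    have hm2 : AEStronglyMeasurable ((fun z => ‖w z‖ ^ 2) ∘ Th) (TP.mt.prod mth) :=
      hm.comp_quasiMeasurePreserving mp_Th.quasiMeasurePreserving
    rw [integrable_prod_iff hm2]
    constructor
    · filter_upwards [ae_mt] with t ht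
      exact circ_sq hw ht
    · apply Integrable.of_bound hm2.norm.integral_prod_right' (C ^ 2)
      filter_upwards [hwb] with t ht
      rw [Real.norm_of_nonneg (integral_nonneg fun _ => norm_nonneg _)]
      refine le_trans (le_of_eq ?_) ht
      apply integral_congr_ae
      filter_upwards with θ
      simp
  exact ⟨key p hp (hb.mono fun _ h => h.1), key q hq (hb.mono fun _ h => h.2)⟩

theorem cont_of {g : ℂ → ℂ} (hs : ContinuousOn g (Metric.ball 0 1))
    (hts : tsupport g ⊆ Metric.ball 0 1) : Continuous g := by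
  rw [continuous_iff_continuousAt]
  intro x
  by_cases hx : x ∈ Metric.ball (0:ℂ) 1
  · exact hs.continuousAt (Metric.isOpen_ball.mem_nhds hx)
  · have h1 : (tsupport g)ᶜ ∈ 𝓝 x := (isClosed_tsupport g).isOpen_compl.mem_nhds fun h => hx (hts h)
    have h2 : g =ᶠ[𝓝 x] fun _ => 0 := by
      filter_upwards [h1] with y hy
      exact image_eq_zero_of_notMem_tsupport hy
    exact continuousAt_const.congr h2.symm

theorem ibp_ball {h ψ : ℂ → ℂ} (hh : ContDiffOn ℝ ∞ h (Metric.ball 0 1)) (hψ : CF ψ) :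
    ∫ z, h z * dbar ψ z = - ∫ z, dbar h z * ψ z := by
  have hcs : ∀ {a b : ℂ → ℂ}, ContinuousOn a (Metric.ball 0 1) → Continuous b →
      tsupport b ⊆ tsupport ψ → Integrable (fun z => a z * b z) := by
    intro a b ha hb hts
    have h1 : tsupport (fun z => a z * b z) ⊆ tsupport ψ :=
      (closure_mono (Function.support_mul_subset_right _ _)).trans hts
    have h2 : Continuous (fun z => a z * b z) :=
      cont_of (ha.mul hb.continuousOn) (h1.trans hψ.2.2)
    exact h2.integrable_of_hasCompactSupport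
      (hψ.2.1.isCompact.of_isClosed_subset (isClosed_tsupport _) h1)
  have hfc : ∀ v : ℂ, ContinuousOn (fun z => fderiv ℝ h z v) (Metric.ball 0 1) := by
    intro v
    exact (hh.continuousOn_fderiv_of_isOpen Metric.isOpen_ball (by simp)).clm_apply
      continuousOn_const
  have hψc : ∀ v : ℂ, Continuous (fun z => fderiv ℝ ψ z v) := fun v =>
    ((hψ.1.fderiv_right (m := ∞) (by simp)).clm_apply contDiff_const).continuous
  have hψs : ∀ v : ℂ, tsupport (fun z => fderiv ℝ ψ z v) ⊆ tsupport ψ := by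
    intro v
    apply closure_minimal _ (isClosed_tsupport ψ)
    intro z hz
    by_contra hn
    apply hz
    have : fderiv ℝ ψ z = 0 := by
      by_contra h0
      exact hn (support_fderiv_subset ℝ h0)
    simp [this]
  have i1 : ∀ v : ℂ, Integrable (fun z => h z * fderiv ℝ ψ z v) := fun v =>
    hcs hh.continuousOn (hψc v) (hψs v)
  have i2 : ∀ v : ℂ, Integrable (fun z => fderiv ℝ h z v * ψ z) := fun v =>
    hcs (hfc v) hψ.1.continuous subset_rfl
  have key : ∀ v : ℂ, ∫ z, h z * fderiv ℝ ψ z v = - ∫ z, fderiv ℝ h z v * ψ z := by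
    intro v
    apply integral_mul_fderiv_eq_neg_fderiv_mul_of_integrable (i2 v) (i1 v)
      (hcs hh.continuousOn hψ.1.continuous subset_rfl)
    · intro z hz
      exact ((hh.differentiableOn (by simp)) z (hψ.2.2 hz)).differentiableAt
        (Metric.isOpen_ball.mem_nhds (hψ.2.2 hz))
    · exact fun z _ => hψ.diff z
  have e1 : ∀ z, h z * dbar ψ z = (1/2) * (h z * fderiv ℝ ψ z 1) +
      (Complex.I/2) * (h z * fderiv ℝ ψ z Complex.I) := by
    intro z; rw [dbar]; ring
  have e2 : ∀ z, dbar h z * ψ z = (1/2) * (fderiv ℝ h z 1 * ψ z) +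
      (Complex.I/2) * (fderiv ℝ h z Complex.I * ψ z) := by
    intro z; rw [dbar]; ring
  rw [integral_congr_ae (Eventually.of_forall e1),
    integral_congr_ae (Eventually.of_forall e2),
    integral_add ((i1 1).const_mul _) ((i1 Complex.I).const_mul _),
    integral_add ((i2 1).const_mul _) ((i2 Complex.I).const_mul _),
    integral_const_mul, integral_const_mul, integral_const_mul, integral_const_mul,
    key, key]
  ring

theorem poly_ball {p : ℂ → ℂ} (hp : DifferentiableOn ℂ p (Metric.ball 0 1)) (d : ℕ) :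
    ∀ n, d < n → ∀ φ, CF φ → ∫ z, (p z * (conj z) ^ d) * (dbar^[n] φ) z = 0 := by
  have hp' : ContDiffOn ℝ ∞ p (Metric.ball 0 1) :=
    (hp.contDiffOn (n := ∞) Metric.isOpen_ball).restrict_scalars ℝ
  have hat : ∀ z ∈ Metric.ball (0:ℂ) 1, DifferentiableAt ℂ p z := fun z hz =>
    (hp z hz).differentiableAt (Metric.isOpen_ball.mem_nhds hz)
  have hout : ∀ {φ : ℂ → ℂ}, CF φ → ∀ z, z ∉ Metric.ball (0:ℂ) 1 → φ z = 0 := fun hφ z hz =>
    image_eq_zero_of_notMem_tsupport fun h => hz (hφ.2.2 h)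
  induction d with
  | zero =>
    intro n hn φ hφ
    obtain ⟨m, rfl⟩ : ∃ m, n = m + 1 := ⟨n-1, by omega⟩
    rw [Function.iterate_succ_apply']
    simp only [pow_zero, mul_one]
    rw [ibp_ball hp' (hφ.iter m), neg_eq_zero]
    have e : ∀ z, dbar p z * dbar^[m] φ z = 0 := by
      intro z
      by_cases hz : z ∈ Metric.ball (0:ℂ) 1
      · rw [dbar_holo (hat z hz), zero_mul]
      · rw [hout (hφ.iter m) z hz, mul_zero]
    rw [integral_congr_ae (Eventually.of_forall e)]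
    simp
  | succ d ih =>
    intro n hn φ hφ
    obtain ⟨m, rfl⟩ : ∃ m, n = m + 1 := ⟨n-1, by omega⟩
    rw [Function.iterate_succ_apply']
    rw [ibp_ball (hp'.mul (conj_smooth (d+1)).contDiffOn) (hφ.iter m)]
    have e : ∀ z, dbar (fun z => p z * (conj z)^(d+1)) z * dbar^[m] φ z =
        ((d:ℂ)+1) * ((p z * (conj z)^d) * dbar^[m] φ z) := by
      intro z
      by_cases hz : z ∈ Metric.ball (0:ℂ) 1
      · rw [dbar_mul ((hat z hz).restrictScalars ℝ)
          ((conj_smooth (d+1)).differentiable (by simp) z), dbar_holo (hat z hz), dbar_conj]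
        ring
      · rw [hout (hφ.iter m) z hz, mul_zero, mul_zero, mul_zero]
    rw [integral_congr_ae (Eventually.of_forall e), integral_const_mul,
      ih m (by omega) φ hφ]
    simp

theorem isPoly_ball {n d : ℕ} (hd : d < n) {p : ℂ → ℂ}
    (hp : DifferentiableOn ℂ p (Metric.ball 0 1)) : IsPoly n (fun z => p z * (conj z) ^ d) := by
  intro φ h1 h2 h3
  have hφ : CF φ := ⟨h1, h2, h3⟩
  have := poly_ball hp d n hd φ hφ
  rw [dA, integral_smul_measure, setIntegral_eq_integral_of_forall_compl_eq_zero, this, smul_zero]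
  intro z hz
  rw [image_eq_zero_of_notMem_tsupport fun h => hz ((hφ.iter n).2.2 h), mul_zero]

end Pool.Agent.R440.TQ
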