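import Pool.Agent.R440.TQ.Jets

open MeasureTheory Set Finset Filter
open scoped ENNReal ContDiff ComplexConjugate Topology

namespace Pool.Agent.R440.TQ
open Pool.Agent.R440.TP

theorem rad_hasF {η : ℝ → ℝ} (h : Differentiable ℝ η) (z : ℂ) :
    HasFDerivAt (fun z : ℂ => ((η (‖z‖ ^ 2) : ℝ) : ℂ))
      (Complex.ofRealCLM.comp ((deriv η (‖z‖^2)) • (2 • (innerSL ℝ z)))) z := by
  have ha : HasFDerivAt (fun z : ℂ => ‖z‖^2) (2 • (innerSL ℝ z)) z :=
    (hasStrictFDerivAt_norm_sq z).hasFDerivAt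
  have hb : HasFDerivAt (fun z : ℂ => η (‖z‖^2)) ((deriv η (‖z‖^2)) • (2 • (innerSL ℝ z))) z :=
    (h (‖z‖^2)).hasDerivAt.comp_hasFDerivAt z ha
  exact Complex.ofRealCLM.hasFDerivAt.comp z hb

theorem dbar_rad {η : ℝ → ℝ} (h : Differentiable ℝ η) (z : ℂ) :
    dbar (fun z : ℂ => ((η (‖z‖ ^ 2) : ℝ) : ℂ)) z = z * ((deriv η (‖z‖^2) : ℝ) : ℂ) := by
  rw [dbar_of (rad_hasF h z)]
  simp only [ContinuousLinearMap.comp_apply, smul_apply, innerSL_apply_apply,
    Complex.ofRealCLM_apply, Complex.inner]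
  simp only [nsmul_eq_mul, smul_eq_mul, Complex.conj_re, Complex.mul_re, Complex.I_re,
    Complex.I_im, Complex.conj_im, mul_zero, zero_mul, zero_sub, neg_neg, add_zero, Complex.one_re,
    Complex.one_im, sub_zero]
  have e2 : ((z.re:ℂ) + Complex.I * z.im) = z := by
    rw [mul_comm]; exact Complex.re_add_im z
  push_cast
  linear_combination (((deriv η (‖z‖^2) : ℝ):ℂ)) * e2

noncomputable def Pz (a : ℕ) (η : ℝ → ℝ) (z : ℂ) : ℂ := z ^ a * ((η (‖z‖ ^ 2) : ℝ) : ℂ)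

theorem rad_smooth {η : ℝ → ℝ} (h : TG η) :
    ContDiff ℝ ∞ (fun z : ℂ => ((η (‖z‖ ^ 2) : ℝ) : ℂ)) := by
  have : ContDiff ℝ ∞ (fun z : ℂ => η (‖z‖^2)) := h.1.comp (contDiff_norm_sq ℝ)
  exact Complex.ofRealCLM.contDiff.comp this

theorem rad_CF {η : ℝ → ℝ} (h : TG η) {g : ℂ → ℂ} (hg : ContDiff ℝ ∞ g) :
    CF (fun z => g z * ((η (‖z‖ ^ 2) : ℝ) : ℂ)) := by
  have hs : tsupport (fun z => g z * ((η (‖z‖ ^ 2) : ℝ) : ℂ)) ⊆
      (fun z : ℂ => ‖z‖ ^ 2) ⁻¹' (tsupport η) := by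
    apply closure_minimal
    · intro z hz
      apply subset_tsupport
      intro h0
      apply hz
      simp [h0]
    · exact (isClosed_tsupport η).preimage (by fun_prop)
  have hs2 : tsupport (fun z => g z * ((η (‖z‖ ^ 2) : ℝ) : ℂ)) ⊆ Metric.ball 0 1 := by
    intro z hz
    have := (h.2.2 (hs hz)).2
    simp only at this
    rw [Metric.mem_ball, dist_zero_right]
    by_contra hn
    push Not at hn
    nlinarith [norm_nonneg z]
  exact ⟨hg.mul (rad_smooth h), (isCompact_closedBall (0:ℂ) 1).of_isClosed_subset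
    (isClosed_tsupport _) (hs2.trans Metric.ball_subset_closedBall), hs2⟩

theorem pow_smooth (a : ℕ) : ContDiff ℝ ∞ (fun z : ℂ => z ^ a) := contDiff_id.pow a

theorem Pz_CF {η : ℝ → ℝ} (h : TG η) (a : ℕ) : CF (Pz a η) := rad_CF h (pow_smooth a)

theorem Pz_dbar {η : ℝ → ℝ} (h : TG η) (a : ℕ) : dbar (Pz a η) = Pz (a+1) (deriv η) := by
  ext z
  have e : Pz a η = fun z => z ^ a * ((η (‖z‖ ^ 2) : ℝ) : ℂ) := rfl
  rw [e, dbar_mul ((pow_smooth a).differentiable (by simp) z) (rad_hasF h.diff z).differentiableAt,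
    dbar_holo (differentiableAt_pow a), dbar_rad h.diff, Pz, pow_succ]
  ring

theorem Pz_iter (n : ℕ) : ∀ {η : ℝ → ℝ}, TG η → ∀ a : ℕ,
    dbar^[n] (Pz a η) = Pz (a+n) (deriv^[n] η) := by
  induction n with
  | zero => intro η _ a; rfl
  | succ n ih =>
    intro η h a
    rw [Function.iterate_succ_apply, Pz_dbar h, ih h.der, Function.iterate_succ_apply]
    congr 1
    omega

noncomputable def Cz (η : ℝ → ℝ) (z : ℂ) : ℂ := conj z * ((η (‖z‖ ^ 2) : ℝ) : ℂ)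

theorem conj_sm : ContDiff ℝ ∞ (fun z : ℂ => conj z) := Complex.conjCLE.contDiff

theorem Cz_CF {η : ℝ → ℝ} (h : TG η) : CF (Cz η) := rad_CF h conj_sm

theorem dbar_conj1 (z : ℂ) : dbar (fun z : ℂ => conj z) z = 1 := by
  have := dbar_conj 0 z
  simpa using this

theorem Cz_dbar {η : ℝ → ℝ} (h : TG η) : dbar (Cz η) = Pz 0 (deriv (fun t => t * η t)) := by
  ext z
  have e : Cz η = fun z => conj z * ((η (‖z‖ ^ 2) : ℝ) : ℂ) := rfl
  rw [e, dbar_mul (conj_sm.differentiable (by simp) z) (rad_hasF h.diff z).differentiableAt,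
    dbar_conj1, dbar_rad h.diff, Pz]
  have hd : deriv (fun t => t * η t) (‖z‖^2) = η (‖z‖^2) + ‖z‖^2 * deriv η (‖z‖^2) := by
    have := (hasDerivAt_id (‖z‖^2)).mul (h.diff (‖z‖^2)).hasDerivAt
    have h' : HasDerivAt (fun t => t * η t) _ (‖z‖^2) := this
    rw [h'.deriv]
    simp
  rw [hd]
  have e2 : conj z * z = ((‖z‖^2 : ℝ) : ℂ) := by
    rw [← Complex.normSq_eq_norm_sq, Complex.normSq_eq_conj_mul_self]
  push_cast
  push_cast at e2
  linear_combination (((deriv η (‖z‖^2) : ℝ):ℂ)) * e2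

theorem CF.mul_pow {φ : ℂ → ℂ} (h : CF φ) (k : ℕ) : CF (fun z => z ^ k * φ z) := by
  refine ⟨(pow_smooth k).mul h.1, h.2.1.mul_left, ?_⟩
  exact (closure_mono (Function.support_mul_subset_right _ _)).trans h.2.2

theorem iter_pow {φ : ℂ → ℂ} (h : CF φ) (k n : ℕ) :
    dbar^[n] (fun z => z ^ k * φ z) = fun z => z ^ k * dbar^[n] φ z := by
  induction n with
  | zero => rfl
  | succ n ih =>
    rw [Function.iterate_succ_apply', ih]
    ext z
    rw [dbar_mul ((pow_smooth k).differentiable (by simp) z) ((h.iter n).diff z),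
      dbar_holo (differentiableAt_pow k), Function.iterate_succ_apply']
    ring

theorem isPoly_mul_pow {n : ℕ} {u : ℂ → ℂ} (hp : IsPoly n u) (k : ℕ) :
    IsPoly n (fun z => u z * z ^ k) := by
  intro φ h1 h2 h3
  have hφ : CF φ := ⟨h1, h2, h3⟩
  have h := CF.mul_pow hφ k
  have := hp _ h.1 h.2.1 h.2.2
  rw [iter_pow hφ] at this
  rw [← this]
  apply integral_congr_ae
  filter_upwards with z
  ring

noncomputable def Vn (u : ℂ → ℂ) (k : ℕ) (t : ℝ) : ℂ := ∫ θ, u (Th (t, θ)) * (Th (t, θ)) ^ k ∂mth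

theorem upow_mem {u : ℂ → ℂ} (hu : MemLp u 2 dA) (k : ℕ) : MemLp (fun z => u z * z ^ k) 2 dA := by
  have h1 : MemLp (fun z : ℂ => z ^ k) ∞ dA := cont_top (by fun_prop)
  refine (mul_top h1 hu).ae_eq ?_
  filter_upwards with z
  ring

theorem pair_test {u : ℂ → ℂ} (hu : MemLp u 2 dA) (k : ℕ) {ψ : ℝ → ℝ} (hψ : Continuous ψ) :
    ∫ z, u z * (z ^ k * ((ψ (‖z‖ ^ 2) : ℝ) : ℂ)) ∂dA = ∫ t, ((ψ t : ℝ) : ℂ) * Vn u k t ∂TP.mt := by
  have hc : Continuous (fun z : ℂ => z ^ k * ((ψ (‖z‖ ^ 2) : ℝ) : ℂ)) := by fun_prop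
  have hint : Integrable (fun z => u z * (z ^ k * ((ψ (‖z‖ ^ 2) : ℝ) : ℂ))) dA := by
    have := (mul_top (cont_top hc) hu).integrable (by norm_num)
    refine this.congr ?_
    filter_upwards with z
    ring
  rw [tr_eq hint]
  apply integral_congr_ae
  filter_upwards [ae_mt] with t ht
  rw [Vn, ← integral_const_mul]
  apply integral_congr_ae
  filter_upwards with θ
  rw [norm_sq_Th ht.1.le]
  ring

theorem neg_poly {n : ℕ} {u : ℂ → ℂ} (hu : MemLp u 2 dA) (hp : IsPoly n u) (k : ℕ) :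
    ∃ c : ℕ → ℂ, ∀ᵐ t ∂TP.mt, Vn u k t = ∑ j ∈ Finset.range n, c j * (t:ℂ) ^ j := by
  obtain ⟨c, hc⟩ := structure_modes (upow_mem hu k) (isPoly_mul_pow hp k) 0
  refine ⟨c, ?_⟩
  filter_upwards [hc] with t ht
  rw [pow_zero, one_mul] at ht
  rw [← ht]
  simp [Vm, Vn]

theorem neg_a {n : ℕ} {u : ℂ → ℂ} (hu : MemLp u 2 dA) (hp : IsPoly n u) {k : ℕ} (hk : n ≤ k) :
    ∀ᵐ t ∂TP.mt, Vn u k t = 0 := by
  obtain ⟨c, hc⟩ := neg_poly hu hp k
  have hz : ∀ j < n, c j = 0 := by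
    intro j hj
    have h1 := et_TG (n - 1 - j)
    have h2 := Pz_CF h1 (k - n)
    have h3 := hp _ h2.1 h2.2.1 h2.2.2
    rw [Pz_iter n h1] at h3
    have e : k - n + n = k := by omega
    rw [e] at h3
    have h4 := pair_test hu k (h1.iter n).1.continuous
    simp only [Pz] at h3
    rw [h3] at h4
    have h5 : ∫ t, ((deriv^[n] (et (n-1-j)) t : ℝ) : ℂ) *
        (∑ j ∈ Finset.range n, c j * (t:ℂ) ^ j) ∂TP.mt = 0 := by
      rw [h4]
      apply integral_congr_ae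
      filter_upwards [hc] with t ht
      rw [ht]
    have h6 := coef_zero (i := n - 1 - j) (by omega) c h5
    have h7 : n - 1 - (n - 1 - j) = j := by omega
    rwa [h7] at h6
  filter_upwards [hc] with t ht
  rw [ht]
  apply sum_eq_zero
  intro j hj
  rw [hz j (Finset.mem_range.1 hj), zero_mul]

theorem neg_b {n : ℕ} (hn : 1 ≤ n) {u : ℂ → ℂ} (hu : MemLp u 2 dA) (hp : IsPoly n u) :
    ∃ β : ℂ, ∀ᵐ t ∂TP.mt, Vn u (n-1) t = β * (t:ℂ) ^ (n-1) := by
  obtain ⟨c, hc⟩ := neg_poly hu hp (n-1)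
  have hz : ∀ j < n - 1, c j = 0 := by
    intro j hj
    obtain ⟨i, hi⟩ : ∃ i, n - 1 - j = i + 1 := ⟨n - 1 - j - 1, by omega⟩
    have h1 := et_TG i
    have h2 := Cz_CF h1
    have h3 := hp _ h2.1 h2.2.1 h2.2.2
    have ee : (fun t => t * et i t) = et (i+1) := by
      ext t
      simp only [et, pow_succ]
      ring
    obtain ⟨m, rfl⟩ : ∃ m, n = m + 1 := ⟨n - 1, by omega⟩
    rw [Function.iterate_succ_apply, Cz_dbar h1, ee, Pz_iter m (et_TG (i+1)).der,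
      ← Function.iterate_succ_apply] at h3
    have h4 := pair_test hu m ((et_TG (i+1)).iter (m+1)).1.continuous
    simp only [Pz, zero_add] at h3
    rw [h3] at h4
    have h5 : ∫ t, ((deriv^[m+1] (et (i+1)) t : ℝ) : ℂ) *
        (∑ j ∈ Finset.range (m+1), c j * (t:ℂ) ^ j) ∂TP.mt = 0 := by
      rw [h4]
      apply integral_congr_ae
      filter_upwards [hc] with t ht
      rw [Nat.add_sub_cancel] at ht
      rw [ht]
    have h6 := coef_zero (i := i+1) (by omega) c h5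
    have h7 : m + 1 - 1 - (i + 1) = j := by omega
    rwa [h7] at h6
  refine ⟨c (n-1), ?_⟩
  filter_upwards [hc] with t ht
  rw [ht, sum_eq_single (n-1)]
  · intro j hj hne
    have := Finset.mem_range.1 hj
    rw [hz j (by omega), zero_mul]
  · intro h
    exact absurd (Finset.mem_range.2 (by omega)) h

end Pool.Agent.R440.TQ
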